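import Mathlib

set_option autoImplicit false

namespace Pool.Agent.Results.MP_3933ef_co.Cex
open Finset

variable {V A : Type} [Fintype V] [DecidableEq V] [Fintype A] [DecidableEq A] (tl hd : A → V)

/-- arcs leaving `U` -/
def out (U : Finset V) : Finset A := univ.filter fun a => tl a ∈ U ∧ hd a ∉ U

/-- arcs entering `U` -/
def inn (U : Finset V) : Finset A := univ.filter fun a => hd a ∈ U ∧ tl a ∉ U

/-- `J` meets every dicut in at least `m` arcs -/
def Dijoin (m : ℕ) (J : Finset A) : Prop :=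
  ∀ U : Finset V, U ≠ ∅ → U ≠ univ → inn tl hd U = ∅ → m ≤ (J ∩ out tl hd U).card

/-- reversing the arcs of `J` gives a `k`-arc-connected digraph -/
def Flip (k : ℕ) (J : Finset A) : Prop :=
  ∀ U : Finset V, U ≠ ∅ → U ≠ univ → k ≤ (J ∩ out tl hd U).card + (inn tl hd U \ J).card

/-- the underlying multigraph is `m`-edge-connected -/
def EdgeConn (m : ℕ) : Prop :=
  ∀ U : Finset V, U ≠ ∅ → U ≠ univ → m ≤ (out tl hd U ∪ inn tl hd U).card

def t : Fin 15 → Fin 7 := ![5, 5, 5, 5, 5, 6, 6, 6, 6, 6, 0, 1, 2, 3, 4]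
def h : Fin 15 → Fin 7 := ![0, 1, 2, 3, 4, 0, 1, 2, 3, 4, 1, 2, 3, 4, 0]

theorem result : ¬ ∀ (V A : Type) [Fintype V] [DecidableEq V] [Fintype A] [DecidableEq A]
    (tl hd : A → V) (τ k : ℕ), (∀ a, tl a ≠ hd a) → 1 ≤ k → k + 1 ≤ τ → EdgeConn tl hd (2 * k) →
    Dijoin tl hd τ univ → ∃ J, Flip tl hd k J ∧ Dijoin tl hd (τ - k) Jᶜ := fun H => by
  obtain ⟨J, a, b⟩ := H _ _ t h 5 2 (by decide) (by decide) (by decide)
    (by unfold EdgeConn; decide +kernel) (by unfold Dijoin; decide +kernel)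
  let x : Fin 15 → ℕ := fun i => if i ∈ J then 1 else 0
  let y : Fin 15 → ℕ := fun i => if i ∈ J then 0 else 1
  have e1 : ∀ S : Finset (Fin 15), (J ∩ S).card = ∑ i ∈ S, x i := fun S => by
    simp [x, inter_comm]
  have e2 : ∀ S : Finset (Fin 15), (S \ J).card = ∑ i ∈ S, y i := fun S => by
    rw [sdiff_eq_filter, card_filter]; simp [y]
  have e3 : ∀ S : Finset (Fin 15), (Jᶜ ∩ S).card = ∑ i ∈ S, y i := fun S => by
    rw [← e2, sdiff_eq_inter_compl, inter_comm]
  have s : ∀ i, x i + y i = 1 := fun i => by simp only [x, y]; split <;> rfl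
  simp only [Flip, Dijoin, e1, e2, e3, out, inn, sum_filter] at a b
  have c0 := a {0}ᶜ (by decide) (by decide)
  have c1 := a {1}ᶜ (by decide) (by decide)
  have c2 := a {2}ᶜ (by decide) (by decide)
  have c3 := a {3}ᶜ (by decide) (by decide)
  have c4 := a {4}ᶜ (by decide) (by decide)
  have b5 := b {5} (by decide) (by decide) (by decide)
  have b6 := b {6} (by decide) (by decide) (by decide)
  simp [Fin.sum_univ_succ, t, h] at c0 c1 c2 c3 c4 b5 b6
  linarith [s 0, s 1, s 2, s 3, s 4, s 5, s 6, s 7, s 8, s 9, s 10, s 11, s 12, s 13, s 14]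

end Pool.Agent.Results.MP_3933ef_co.Cex
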